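import Pool.Agent.Lib.MP_aa7e4d_lc.Interfaces

/-!
# MAIN: the counterexample, from the statements of the modules
-/

open FirstOrder FirstOrder.Language

namespace Pool.Agent.SFC.H6

/-- the strong form of the main theorem: one pair of sequences shows that every formula over
`C ∪ {b}` in the type of `a` which forks over `C` has the order property, with the parameters
from `C` kept fixed -/
def StrongStatement : Prop :=
  ∃ T : Lang.Theory, T.IsComplete ∧ Simple T ∧
    ∃ (M : Type) (_ : Lang.Structure M) (_ : Nonempty M) (_ : M ⊨ T) (C : Set M) (a b : ℕ → M),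
      C.Countable ∧ (∀ j, b j ∉ C) ∧
      TypeForks (L := Lang) C (C ∪ {b 1}) (fun _ : Fin 1 => a 0) ∧
      ∀ (r : ℕ) (φ : Lang.Formula (Fin 1 ⊕ Fin r)) (d : Fin r → M), (∀ s, d s ∈ C ∪ {b 1}) →
        φ.Realize (Sum.elim (fun _ => a 0) d) → Forks C φ d →
        ∀ (i j : ℕ) (d' : Fin r → M), (∀ s, d s ∈ C → d' s = d s) → (∀ s, d s = b 1 → d' s = b j) →
          (φ.Realize (Sum.elim (fun _ => a i) d') ↔ i < j)

theorem forks_of_divides {L : FirstOrder.Language.{0, 0}} {M : Type} [L.Structure M] {α : Type}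
    {n : ℕ} {C : Set M} {φ : L.Formula (α ⊕ Fin n)} {b : Fin n → M} (h : Divides C φ b) :
    Forks C φ b := by
  refine ⟨M, inferInstance, ElementaryEmbedding.refl L M, 1, fun _ => n, fun _ => φ, fun _ => b,
    fun _ => ?_, fun a ha => ⟨0, ha⟩⟩
  have hC : (ElementaryEmbedding.refl L M) '' C = C := by
    ext x
    simp
  rw [hC]
  exact h

/-- the formula saying that `x` is adjacent to `y` -/
def adjF : Lang.Formula (Fin 1 ⊕ Fin 1) :=
  Relations.formula₂ (Sym.adj : Lang.Relations 2) (Term.var (Sum.inl 0)) (Term.var (Sum.inr 0))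

theorem realize_adjF {N : Type} [Lang.Structure N] {F : Frame N} (hC : Compat F)
    (v : Fin 1 ⊕ Fin 1 → N) : adjF.Realize v ↔ F.Adj (v (Sum.inl 0)) (v (Sum.inr 0)) := by
  unfold adjF
  rw [Formula.realize_rel₂, hC.2.2]
  simp

theorem strong (hSimp : SimpStatement) (hDet : DetStatement) (hNat : NatStatement)
    (hR1 : Reor1Statement) (hR2 : Reor2Statement) (hSeq : SeqStatement) (hT1 : Typ1Statement)
    (hT2 : Typ2Statement) (hInd : IndiscStatement) (hInc : InconsStatement)
    (hNF : NoForkStatement) : StrongStatement := by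
  obtain ⟨F, hF⟩ := hNat
  let _ : Lang.Structure ℕ := F.str
  have hC : Compat F := F.compat_str
  obtain ⟨e, c, a, b, h, cfg⟩ := hSeq ℕ F hF
  have hbc : ∀ j n, c n ≠ b j := by
    intro j n hjn
    have h1 := cfg.kind_c n
    rw [hjn, cfg.kind_b j] at h1
    cases h1
  refine ⟨Lang.completeTheory ℕ, ?_, hSimp ℕ F hF hC, ℕ, inferInstance, inferInstance,
    inferInstance, Set.range c, a, b, Set.countable_range c, ?_, ?_, ?_⟩
  · exact (completeTheory.isMaximal Lang ℕ).isComplete
  · rintro j ⟨n, hn⟩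
    exact hbc j n hn
  · refine ⟨1, adjF, fun _ => b 1, fun _ => Or.inr rfl, ?_, forks_of_divides ?_⟩
    · rw [realize_adjF hC]
      simp only [Sum.elim_inl, Sum.elim_inr]
      have hpa := cfg.p_a 0
      have hne : F.f .p (a 0) ≠ a 0 := by
        rw [hpa]
        intro h1
        have h2 := cfg.kind_e
        rw [h1, cfg.kind_a 0] at h2
        cases h2
      refine ⟨cfg.kind_a 0, cfg.kind_b 1, (cfg.R_ab 0 1).2 (by norm_num), Or.inl ⟨hne, ?_⟩⟩
      rw [hpa]
      refine ⟨?_, cfg.kind_e, Or.inl (cfg.p_b 1)⟩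
      rw [cfg.kind_b 1]
      intro h1
      cases h1
    · refine ⟨ℕ, inferInstance, ElementaryEmbedding.refl Lang ℕ, 2,
        fun (n : ℕ) (_ : Fin 1) => if n = 0 then b 1 else h n, ?_, ?_, ?_⟩
      · funext i
        simp
      · have hC' : (ElementaryEmbedding.refl Lang ℕ) '' (Set.range c) = Set.range c := by
          ext x
          simp
        rw [hC']
        exact hInd hDet hR1 ℕ F hF hC e c a b h cfg
      · intro s hs
        obtain ⟨m, n, hmn, rfl⟩ := Finset.card_eq_two.1 hs
        rintro ⟨x, hx⟩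
        have h1 := hx m (by simp)
        have h2 := hx n (by simp)
        rw [realize_adjF hC] at h1 h2
        exact hInc hR1 ℕ F hF hC e c a b h cfg (x 0) m n hmn (by simpa using h1)
          (by simpa using h2)
  · intro r φ d hd hφ hfork i j d' hd1 hd2
    have hcode : ∀ s, ∃ q : ℕ ⊕ Unit, Sum.elim c (fun _ => b 1) q = d s := by
      intro s
      rcases hd s with ⟨n, hn⟩ | h1
      · exact ⟨Sum.inl n, hn⟩
      · exact ⟨Sum.inr (), h1.symm⟩
    choose q hq using hcode
    have hdq : d = tup c b 1 q := by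
      funext s
      exact (hq s).symm
    have hdq' : d' = tup c b j q := by
      funext s
      rcases hqs : q s with n | n
      · have h1 : d s = c n := by
          rw [← hq s, hqs]
          rfl
        have h2 := hd1 s ⟨n, h1.symm⟩
        rw [h2, h1, tup, hqs]
        rfl
      · have h1 : d s = b 1 := by
          rw [← hq s, hqs]
          rfl
        rw [hd2 s h1, tup, hqs]
        rfl
    obtain ⟨k, hk⟩ : ∃ k : ℕ, ∀ m, q m ≠ Sum.inl k := by
      obtain ⟨k, hk⟩ := Infinite.exists_notMem_finset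
        (Finset.univ.image (fun m => (Sum.elim id (fun _ => 0) (q m) : ℕ)))
      refine ⟨k, fun m hm => hk ?_⟩
      rw [Finset.mem_image]
      exact ⟨m, Finset.mem_univ _, by rw [hm]; rfl⟩
    have hck : ¬ φ.Realize (Sum.elim (fun _ => c k) d) :=
      hNF Lang ℕ (Set.range c) r φ d hfork (c k) ⟨k, rfl⟩
    rw [hdq']
    rw [hdq] at hφ hck
    constructor
    · intro hr
      by_contra hij
      exact hck ((hT2 hDet hR1 hR2 ℕ F hF hC e c a b h cfg r q φ i j k (not_lt.1 hij) hk).1 hr)
    · intro hij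
      exact (hT1 hDet ℕ F hF hC e c a b h cfg r q φ i j 0 1 hij (by norm_num)).2 hφ

/-- the order property shows that the formula is not stable -/
theorem not_stable {L : FirstOrder.Language.{0, 0}} {T : L.Theory} {M : Type} [L.Structure M]
    [Nonempty M] (hT : M ⊨ T) {C : Set M} {a b : ℕ → M} (hb : ∀ j, b j ∉ C) {r : ℕ}
    {φ : L.Formula (Fin 1 ⊕ Fin r)} {d : Fin r → M}
    (h : ∀ (i j : ℕ) (d' : Fin r → M), (∀ s, d s ∈ C → d' s = d s) →
      (∀ s, d s = b 1 → d' s = b j) → (φ.Realize (Sum.elim (fun _ => a i) d') ↔ i < j)) :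
    ¬ StableFormula T φ := by
  classical
  intro hs
  refine hs ⟨M, inferInstance, hT, inferInstance, fun i _ => a i,
    fun j s => if d s = b 1 then b j else d s, fun i j => h i j _ ?_ ?_⟩
  · intro s h1
    have h2 : d s ≠ b 1 := by
      intro h3
      exact hb 1 (h3 ▸ h1)
    simp [h2]
  · intro s h1
    simp [h1]

theorem main_of_strong (h : StrongStatement) : MainStatement := by
  obtain ⟨T, hT, hS, M, iM, hne, hM, C, a, b, hC, hb, hfork, hst⟩ := h
  refine ⟨T, hT, hS, M, iM, hne, hM, C, a 0, b 1, hfork, ?_⟩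
  intro r φ d hd hφ hF
  exact not_stable hM hb (hst r φ d hd hφ hF)

theorem not_stableForking (h : MainStatement) :
    ∃ T : Lang.Theory, T.IsComplete ∧ Simple T ∧ ¬ StableForking T := by
  obtain ⟨T, hT, hS, M, iM, hne, hM, C, a, b, hfork, hst⟩ := h
  refine ⟨T, hT, hS, fun hsf => ?_⟩
  have hr : Set.range (fun _ : Fin 1 => b) = {b} := by
    ext x
    simp [eq_comm]
  obtain ⟨r, φ, d, hd, hstab, hφ, hF⟩ := hsf M hM C 1 1 (fun _ => a) (fun _ => b) (by
    rw [hr]
    exact hfork)
  rw [hr] at hd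
  exact hst r φ d hd hφ hF hstab

end Pool.Agent.SFC.H6
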