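import Pool.Agent.Lib.MP_aa7e4d_lc.H6.Simp
import Pool.Agent.Lib.MP_aa7e4d_lc.H6.Main
import Pool.Agent.Lib.MP_aa7e4d_lc.H7.Seq
import Pool.Agent.Lib.MP_aa7e4d_lc.H7.Tree
import Pool.Agent.Lib.MP_aa7e4d_lc.H8.Emb
import Pool.Agent.Lib.MP_aa7e4d_lc.H19.Det
import Pool.Agent.Lib.MP_aa7e4d_lc.H19.Unif
import Pool.Agent.Lib.MP_aa7e4d_lc.H30.Ext
import Pool.Agent.Lib.MP_aa7e4d_lc.H35.Typ
import Pool.Agent.Lib.MP_aa7e4d_lc.H36.Reor
import Pool.Agent.Lib.MP_aa7e4d_lc.H47.Step
import Pool.Agent.Lib.MP_aa7e4d_lc.H60.Ultra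
import Pool.Agent.Lib.MP_aa7e4d_lc.H87.Incons
import Pool.Agent.Lib.MP_aa7e4d_lc.H87.Nat
import Pool.Agent.Lib.MP_aa7e4d_lc.H87.NoFork
import Pool.Agent.Lib.MP_aa7e4d_lc.H99.Amalg

/-!
# Assembly of the modules
-/

open FirstOrder FirstOrder.Language

namespace Pool.Agent.SFC.H6

theorem det : DetStatement := H19.det (H47.step H30.ext)

theorem simp' : SimpStatement :=
  simp det H60.ultra H8.emb H7.tree H19.unif (H99.amalg H30.ext)

theorem strongStatement : StrongStatement :=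
  strong simp' det H87.nat H36.reor1 H36.reor2 H7.seq H35.typ1 H35.typ2 H35.indisc H87.incons
    H87.nofork

/-- the language of the counterexample has finitely many symbols -/
theorem finite_symbols : Finite Lang.Symbols := by
  have h1 : Finite (Σ l, Lang.Functions l) := by
    have : IsEmpty (Σ l, Lang.Functions l) := ⟨fun x => Empty.elim x.2⟩
    infer_instance
  have h2 : Finite (Σ l, Lang.Relations l) := by
    refine Finite.of_surjective
      (fun q : Kind ⊕ Bool => (match q with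
        | Sum.inl κ => ⟨1, Sym.kd κ⟩
        | Sum.inr true => ⟨2, Sym.inc⟩
        | Sum.inr false => ⟨2, Sym.adj⟩ : Σ l, Lang.Relations l)) ?_
    rintro ⟨l, r⟩
    cases r with
    | kd κ => exact ⟨Sum.inl κ, rfl⟩
    | inc => exact ⟨Sum.inr true, rfl⟩
    | adj => exact ⟨Sum.inr false, rfl⟩
  exact Finite.instSum

theorem isRelational : Lang.IsRelational := fun _ => ⟨fun f => Empty.elim f⟩

end Pool.Agent.SFC.H6
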