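import Pool.Agent.Lib.MP_aa7e4d_lc.Interfaces

open FirstOrder FirstOrder.Language

namespace Pool.Agent.SFC.H6

/-- words of length at most `d` -/
abbrev Wd (d : ℕ) : Type := {w : List Fn // w.length ≤ d}

instance (d : ℕ) : Finite (Wd d) := (List.finite_length_le Fn d).to_subtype

/-- an increasing sequence of subsets of a finite type stops growing somewhere -/
theorem exists_stop {P : Type} [Finite P] (G : ℕ → Set P) (hG : Monotone G) :
    ∃ l ≤ Nat.card P, G (l + 1) ⊆ G l := by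
  classical
  by_contra hcon
  push Not at hcon
  have key : ∀ l ≤ Nat.card P + 1, l ≤ (G l).ncard := by
    intro l
    induction l with
    | zero => intro _; exact Nat.zero_le _
    | succ l ih =>
      intro hl
      have h1 := ih (by omega)
      have h2 := hcon l (by omega)
      have h3 : G l ⊂ G (l + 1) := ⟨hG (Nat.le_succ l), h2⟩
      have h4 := Set.ncard_lt_ncard h3 (Set.toFinite _)
      omega
  have h5 := key (Nat.card P + 1) le_rfl
  have h6 : (G (Nat.card P + 1)).ncard ≤ Nat.card P := Set.ncard_le_card _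
  omega

/-- transfer of inconsistency along an elementary embedding -/
theorem inconsistent_map {L : FirstOrder.Language.{0, 0}} {M N : Type} [L.Structure M]
    [L.Structure N] (j : M ↪ₑ[L] N) {m n : ℕ} (φ : L.Formula (Fin m ⊕ Fin n))
    (K : Finset ℕ) (b : ℕ → Fin n → M)
    (h : ¬ ∃ a : Fin m → M, ∀ i ∈ K, φ.Realize (Sum.elim a (b i))) :
    ¬ ∃ a : Fin m → N, ∀ i ∈ K, φ.Realize (Sum.elim a (j ∘ b i)) := by
  classical
  rintro ⟨a, ha⟩
  apply h
  let ψ : L.Formula (K × Fin n) :=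
    (Formula.iInf (fun i : K => φ.relabel
      (Sum.elim (fun x => Sum.inr x) (fun y => Sum.inl (i, y)) :
        Fin m ⊕ Fin n → (K × Fin n) ⊕ Fin m))).iExs (Fin m)
  have h1 : ψ.Realize (j ∘ fun p : K × Fin n => b p.1 p.2) := by
    simp only [ψ, Formula.realize_iExs, Formula.realize_iInf, Formula.realize_relabel]
    refine ⟨a, fun i => ?_⟩
    convert ha i i.2 using 1
    funext z
    rcases z with z | z <;> rfl
  rw [j.map_formula] at h1
  simp only [ψ, Formula.realize_iExs, Formula.realize_iInf, Formula.realize_relabel] at h1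
  obtain ⟨a', ha'⟩ := h1
  refine ⟨a', fun i hi => ?_⟩
  convert ha' ⟨i, hi⟩ using 1
  funext z
  rcases z with z | z <;> rfl

theorem simp (hDet : DetStatement) (hUltra : UltraStatement) (hEmb : EmbStatement)
    (hTree : TreeStatement) (hUnif : UnifStatement) (hAm : AmalgStatement) : SimpStatement := by
  classical
  intro M _ _ F hG hC m n φ hT
  obtain ⟨N0, sN0, hN0, hne, k, b0, hinc, hpath⟩ := hT
  obtain ⟨I, u, ⟨j⟩⟩ := hEmb Lang M N0 hN0
  obtain ⟨F', hG', hC'⟩ := hUltra M F hG hC I u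
  obtain ⟨d, hd⟩ := hDet (Fin m ⊕ Fin n) φ
  let b : List ℕ → Fin n → _ := fun s => j ∘ b0 s
  have hpath' : ∀ s : List ℕ, ∃ a : Fin m → ((u : Filter I).Product (fun _ : I => M)),
      ∀ t : List ℕ, t ≠ [] → t <:+ s → φ.Realize (Sum.elim a (b t)) := by
    intro s
    obtain ⟨a, ha⟩ := hpath s
    refine ⟨j ∘ a, fun t h1 h2 => ?_⟩
    have := ha t h1 h2
    rw [← j.map_formula] at this
    convert this using 1
    funext z
    rcases z with z | z <;> rfl
  have hinc' : ∀ s : List ℕ, ∀ K : Finset ℕ, K.card = k →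
      ¬ ∃ a : Fin m → ((u : Filter I).Product (fun _ : I => M)),
        ∀ i ∈ K, φ.Realize (Sum.elim a (b (i :: s))) := by
    intro s K hK
    exact inconsistent_map j φ K (fun i => b0 (i :: s)) (hinc s K hK)
  choose A hA using hpath'
  let X : List ℕ → Set ((u : Filter I).Product (fun _ : I => M)) := fun σ =>
    Set.range (fun p : Wd d × Fin m => F'.ev p.1.1 (A σ p.2))
  let Y : List ℕ → Set ((u : Filter I).Product (fun _ : I => M)) := fun t =>
    Set.range (fun p : Wd d × Fin n => F'.ev p.1.1 (b t p.2))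
  have hXfin : ∀ σ, (X σ).Finite := fun σ => Set.finite_range _
  have hYfin : ∀ σ, (Y σ).Finite := fun σ => Set.finite_range _
  have hXcard : ∀ σ, (X σ).ncard < Nat.card (Wd d × Fin m) + 1 := by
    intro σ
    have : (X σ).ncard ≤ Nat.card (Wd d × Fin m) := by
      have h1 := Set.ncard_image_le (f := fun p : Wd d × Fin m => F'.ev p.1.1 (A σ p.2))
        (s := Set.univ) Set.finite_univ
      rw [Set.image_univ, Set.ncard_univ] at h1
      exact h1
    omega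
  obtain ⟨s, hs⟩ := hTree _ _ X Y hXfin hXcard
  set J : Set ℕ := {i : ℕ | ∃ σ : List ℕ, (i :: s) <:+ σ ∧
      ∀ z ∈ X σ, z ∈ Y (i :: s) → ∃ t : List ℕ, t ≠ [] ∧ t <:+ s ∧ z ∈ Y t} with hJ
  have hsig : ∀ i : ℕ, ∃ σ : List ℕ, i ∈ J → ((i :: s) <:+ σ ∧
      ∀ z ∈ X σ, z ∈ Y (i :: s) → ∃ t : List ℕ, t ≠ [] ∧ t <:+ s ∧ z ∈ Y t) := by
    intro i
    by_cases hi : i ∈ J
    · obtain ⟨σ, h1⟩ := hi
      exact ⟨σ, fun _ => h1⟩
    · exact ⟨[], fun h => absurd h hi⟩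
  choose sig hsig using hsig
  let a : ℕ → Fin m → _ := fun i => A (sig i)
  let b' : ℕ → Fin n → _ := fun i => b (i :: s)
  let W0 : Set ((u : Filter I).Product (fun _ : I => M)) :=
    {z | ∃ t : List ℕ, t ≠ [] ∧ t <:+ s ∧ z ∈ Y t}
  have hW0 : W0.Finite := by
    have h1 : W0 ⊆ ⋃ t ∈ {t : List ℕ | t <:+ s}, Y t := by
      rintro z ⟨t, _, h2, h3⟩
      exact Set.mem_biUnion h2 h3
    refine Set.Finite.subset (Set.Finite.biUnion ?_ (fun t _ => hYfin t)) h1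
    have : {t : List ℕ | t <:+ s} ⊆ {t | t ∈ s.tails} := by
      intro t ht
      exact (List.mem_tails t s).2 ht
    exact (List.finite_toSet _).subset this
  let Wl : ℕ → Set ((u : Filter I).Product (fun _ : I => M)) := fun l =>
    Set.image2 (fun (w : Wd l) z => F'.ev w.1 z) Set.univ W0
  have hWl : ∀ l, (Wl l).Finite := fun l => Set.Finite.image2 _ Set.finite_univ hW0
  have hWmono : Monotone Wl := by
    intro l l' hl z hz
    obtain ⟨w, _, z0, hz0, rfl⟩ := hz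
    exact ⟨⟨w.1, w.2.trans hl⟩, trivial, z0, hz0, rfl⟩
  set cc := Nat.card (Wd d × Fin m) with hcc
  have hstop : ∀ i : ℕ, ∃ l ≤ cc, ∀ p : Wd d × Fin m,
      F'.ev p.1.1 (a i p.2) ∈ Wl (l + 1) → F'.ev p.1.1 (a i p.2) ∈ Wl l := by
    intro i
    obtain ⟨l, hl, h⟩ := exists_stop (P := Wd d × Fin m)
      (fun l => {p | F'.ev p.1.1 (a i p.2) ∈ Wl l}) (fun l l' hl p hp => hWmono hl hp)
    exact ⟨l, hl, fun p hp => h hp⟩
  choose ell hell hell2 using hstop
  haveI hWfin : Finite (Wl (cc + 1)) := (hWl (cc + 1)).to_subtype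
  let Q : Type := Fin (cc + 1) × ((Wd d × Fin m) → (Wd d × Fin m) → Prop) ×
    ((Wd d × Fin m) → Kind) × ((Wd d × Fin m) → (Wd d × Fin m) → Prop) ×
    ((Wd d × Fin m) → Wl (cc + 1) → Prop) × ((Wd d × Fin m) → Wl (cc + 1) → Prop) ×
    ((Wd d × Fin m) → (Wd d × Fin n) → Prop)
  let col : ℕ → Q := fun i =>
    (⟨ell i, Nat.lt_succ_of_le (hell i)⟩,
      fun p q => F'.ev p.1.1 (a i p.2) = F'.ev q.1.1 (a i q.2),
      fun p => F'.kind (F'.ev p.1.1 (a i p.2)),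
      fun p q => F'.R (F'.ev p.1.1 (a i p.2)) (F'.ev q.1.1 (a i q.2)),
      fun p z => F'.ev p.1.1 (a i p.2) = z.1,
      fun p z => F'.R (F'.ev p.1.1 (a i p.2)) z.1,
      fun p q => F'.R (F'.ev p.1.1 (a i p.2)) (F'.ev q.1.1 (b' i q.2)))
  obtain ⟨K, hKc, hKJ, hcol, hdelta⟩ := hUnif _ Q (Wd d × Fin n) J col
    (fun i q => F'.ev q.1.1 (b' i q.2)) k hs
  -- the common stopping level
  obtain ⟨l, hl, hKl⟩ : ∃ l ≤ cc, ∀ i ∈ K, ell i = l := by
    rcases K.eq_empty_or_nonempty with hK | ⟨j0, hj0⟩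
    · exact ⟨0, Nat.zero_le _, by simp [hK]⟩
    · refine ⟨ell j0, hell j0, fun i hi => ?_⟩
      have := congrArg (fun q : Q => q.1.1) (hcol i hi j0 hj0)
      exact this
  have hWlsub : Wl l ⊆ Wl (cc + 1) := hWmono (by omega)
  let W : Finset ((u : Filter I).Product (fun _ : I => M)) := (hWl l).toFinset
  have hmemW : ∀ z, z ∈ W ↔ z ∈ Wl l := fun z => by simp [W]
  have c1 : ∀ i ∈ K, ∀ i' ∈ K, ∀ p q : Wd d × Fin m,
      (F'.ev p.1.1 (a i p.2) = F'.ev q.1.1 (a i q.2) ↔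
        F'.ev p.1.1 (a i' p.2) = F'.ev q.1.1 (a i' q.2)) := by
    intro i hi i' hi' p q
    have := congrArg (fun c : Q => c.2.1 p q) (hcol i hi i' hi')
    exact iff_of_eq this
  have c2 : ∀ i ∈ K, ∀ i' ∈ K, ∀ p : Wd d × Fin m,
      F'.kind (F'.ev p.1.1 (a i p.2)) = F'.kind (F'.ev p.1.1 (a i' p.2)) := by
    intro i hi i' hi' p
    exact congrArg (fun c : Q => c.2.2.1 p) (hcol i hi i' hi')
  have c3 : ∀ i ∈ K, ∀ i' ∈ K, ∀ p q : Wd d × Fin m,
      (F'.R (F'.ev p.1.1 (a i p.2)) (F'.ev q.1.1 (a i q.2)) ↔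
        F'.R (F'.ev p.1.1 (a i' p.2)) (F'.ev q.1.1 (a i' q.2))) := by
    intro i hi i' hi' p q
    exact iff_of_eq (congrArg (fun c : Q => c.2.2.2.1 p q) (hcol i hi i' hi'))
  have c4 : ∀ i ∈ K, ∀ i' ∈ K, ∀ (p : Wd d × Fin m) (z : Wl (cc + 1)),
      (F'.ev p.1.1 (a i p.2) = z.1 ↔ F'.ev p.1.1 (a i' p.2) = z.1) := by
    intro i hi i' hi' p z
    exact iff_of_eq (congrArg (fun c : Q => c.2.2.2.2.1 p z) (hcol i hi i' hi'))
  have c5 : ∀ i ∈ K, ∀ i' ∈ K, ∀ (p : Wd d × Fin m) (z : Wl (cc + 1)),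
      (F'.R (F'.ev p.1.1 (a i p.2)) z.1 ↔ F'.R (F'.ev p.1.1 (a i' p.2)) z.1) := by
    intro i hi i' hi' p z
    exact iff_of_eq (congrArg (fun c : Q => c.2.2.2.2.2.1 p z) (hcol i hi i' hi'))
  have c6 : ∀ i ∈ K, ∀ i' ∈ K, ∀ (p : Wd d × Fin m) (q : Wd d × Fin n),
      (F'.R (F'.ev p.1.1 (a i p.2)) (F'.ev q.1.1 (b' i q.2)) ↔
        F'.R (F'.ev p.1.1 (a i' p.2)) (F'.ev q.1.1 (b' i' q.2))) := by
    intro i hi i' hi' p q
    exact iff_of_eq (congrArg (fun c : Q => c.2.2.2.2.2.2 p q) (hcol i hi i' hi'))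
  obtain ⟨a', ha'⟩ := hAm _ F' hG' (Fin m) (Fin n) d K a b' W
    (by
      intro i hi i' hi'
      refine ⟨fun x y w w' hw hw' => c1 i hi i' hi' (⟨w, hw⟩, x) (⟨w', hw'⟩, y),
        fun x w hw => c2 i hi i' hi' (⟨w, hw⟩, x),
        fun x y w w' hw hw' => c3 i hi i' hi' (⟨w, hw⟩, x) (⟨w', hw'⟩, y)⟩)
    (by
      intro i hi x y w w' hw hw' h
      rw [hmemW]
      have hz := (hsig i (hKJ i hi)).2 (F'.ev w (a i x)) ⟨(⟨w, hw⟩, x), rfl⟩
        ⟨(⟨w', hw'⟩, y), h.symm⟩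
      exact ⟨⟨[], Nat.zero_le _⟩, trivial, _, hz, rfl⟩)
    (by
      intro i hi x w f hw h
      rw [hmemW] at h ⊢
      have h1 := hell2 i (⟨f :: w, by simpa using hw⟩, x)
      rw [hKl i hi] at h1
      apply h1
      obtain ⟨w0, _, z0, hz0, h2⟩ := h
      refine ⟨⟨f :: w0.1, by simpa using w0.2⟩, trivial, z0, hz0, ?_⟩
      simp only [Frame.ev_cons]
      rw [← h2])
    (by
      intro i hi i' hi' x w hw z hz
      rw [hmemW] at hz
      exact c4 i hi i' hi' (⟨w, hw⟩, x) ⟨z, hWlsub hz⟩)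
    (by
      intro i hi i' hi' x w hw z hz
      rw [hmemW] at hz
      exact c5 i hi i' hi' (⟨w, hw⟩, x) ⟨z, hWlsub hz⟩)
    (by
      intro i hi i' hi' x y w w' hw hw'
      exact c6 i hi i' hi' (⟨w, hw⟩, x) (⟨w', hw'⟩, y))
    (by
      intro i hi i' hi' hne y y' w w' hw hw' h
      exact hdelta i hi i' hi' hne (⟨w, hw⟩, y) (⟨w', hw'⟩, y') h)
  refine hinc' s K hKc ⟨a', fun i hi => ?_⟩
  have h1 := hd _ _ F' F' hG' hG' hC' hC' _ _ (ha' i hi)
  rw [← h1]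
  exact hA (sig i) (i :: s) (by simp) (hsig i (hKJ i hi)).1

end Pool.Agent.SFC.H6
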